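import Mathlib

/-!
# Direct acceptability with strengthened parity is stronger: `DAˢ ≠ DA`

The formula is `¬(P₁ ∧ … ∧ P₈)` with
`P₁ = ¬(p → q)`, `P₂ = ¬(p' → q')`, `P₃ = p → (l ∨ r)`, `P₄ = p' → (a ∨ b)`, `P₅ = r → q`,
`P₆ = b → q'`, `P₇ = l → (a → s)`, `P₈ = ¬q → (¬q' → ¬s)`.

A tree with parity forks on `l ∨ r` and then, on the branch of `l`, on `a ∨ b`. In a tree with
strengthened parity the first fork cannot be on `l ∨ r`: then `p` and `¬q` are critical nodes on every
branch, but the branch that goes to `l` and to `b` at all forks can only have the crash-pair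
`q', ¬q'`, whose trace does not contain them. Likewise it cannot be on `a ∨ b`: consider the branch
that goes to `r` and to `a` at all forks. Without forks there is no crash-pair.
-/

set_option autoImplicit false

namespace Pool.Agent.Results.MP_b8bcd1_lc.StrengthenedParityIsStronger

/-- Formulae. -/
inductive Fm : Type
  | atom (n : ℕ) : Fm
  | neg (a : Fm) : Fm
  | and (a b : Fm) : Fm
  | or (a b : Fm) : Fm
  | imp (a b : Fm) : Fm
  deriving DecidableEq

/-- A node of a truth-tree, as an element of a branch: its formula, the positions on the branch of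
the nodes it was obtained from, and, for a critical node, the position of its partner. -/
structure Node where
  /-- the formula -/
  label : Fm
  /-- the positions of the nodes it was obtained from -/
  src : List ℕ
  /-- the position of the partner of a critical node -/
  partner : Option ℕ
  deriving DecidableEq

/-- The list of the nodes of a branch, starting with the root. -/
abbrev Branch : Type := List Node

/-- The formula at a position. -/
def lab (B : Branch) (i : ℕ) : Option Fm := (B[i]?).map Node.label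

/-- `Tree B`: the finite ways to continue the branch `B` by the rules. -/
inductive Tree : Branch → Type
  | leaf (B : Branch) : Tree B
  | conj (B : Branch) (i : ℕ) (α β : Fm) (h : lab B i = some (Fm.and α β))
      (t : Tree (B ++ [⟨α, [i], none⟩, ⟨β, [i], none⟩])) : Tree B
  | negDisj (B : Branch) (i : ℕ) (α β : Fm) (h : lab B i = some (Fm.neg (Fm.or α β)))
      (t : Tree (B ++ [⟨Fm.neg α, [i], none⟩, ⟨Fm.neg β, [i], none⟩])) : Tree B
  | negNeg (B : Branch) (i : ℕ) (α : Fm) (h : lab B i = some (Fm.neg (Fm.neg α)))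
      (t : Tree (B ++ [⟨α, [i], none⟩])) : Tree B
  | negConj (B : Branch) (i : ℕ) (α β : Fm) (h : lab B i = some (Fm.neg (Fm.and α β)))
      (t₁ : Tree (B ++ [⟨Fm.neg α, [i], none⟩])) (t₂ : Tree (B ++ [⟨Fm.neg β, [i], none⟩])) : Tree B
  | disj (B : Branch) (i : ℕ) (α β : Fm) (h : lab B i = some (Fm.or α β))
      (t₁ : Tree (B ++ [⟨α, [i], none⟩])) (t₂ : Tree (B ++ [⟨β, [i], none⟩])) : Tree B
  | mp (B : Branch) (i j : ℕ) (α β : Fm) (h₁ : lab B i = some α)
      (h₂ : lab B j = some (Fm.imp α β)) (t : Tree (B ++ [⟨β, [i, j], none⟩])) : Tree B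
  | counter (B : Branch) (i : ℕ) (α β : Fm) (h : lab B i = some (Fm.neg (Fm.imp α β)))
      (t : Tree (B ++ [⟨α, [i], some (B.length + 1)⟩, ⟨Fm.neg β, [i], some B.length⟩])) : Tree B

/-- The branches (from the root to a leaf) of a tree. -/
def Tree.branches : {B : Branch} → Tree B → List Branch
  | B, Tree.leaf _ => [B]
  | _, Tree.conj _ _ _ _ _ t => t.branches
  | _, Tree.negDisj _ _ _ _ _ t => t.branches
  | _, Tree.negNeg _ _ _ _ t => t.branches
  | _, Tree.negConj _ _ _ _ _ t₁ t₂ => t₁.branches ++ t₂.branches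
  | _, Tree.disj _ _ _ _ _ t₁ t₂ => t₁.branches ++ t₂.branches
  | _, Tree.mp _ _ _ _ _ _ _ t => t.branches
  | _, Tree.counter _ _ _ _ _ t => t.branches

/-- A truth-tree for `φ`: its root is labelled `¬φ`. -/
abbrev TruthTree (φ : Fm) : Type := Tree [⟨Fm.neg φ, [], none⟩]

/-- `InTrace B n k`: the node `k` belongs to the trace `T(n)` of the node `n` of the branch `B`. -/
inductive InTrace (B : Branch) (n : ℕ) : ℕ → Prop
  | self : InTrace B n n
  | step (m k : ℕ) (e : Node) : InTrace B n m → B[m]? = some e → k ∈ e.src → InTrace B n k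

/-- The nodes `n`, `m` are a crash-pair on the branch `B`. -/
def CrashPair (B : Branch) (n m : ℕ) : Prop :=
  ∃ ζ : Fm, lab B n = some ζ ∧ lab B m = some (Fm.neg ζ)

/-- The branch `B` carries a crash-pair `Z` such that for every critical node `c` on `B`,
`c ∈ T(Z)` exactly when the partner of `c` is in `T(Z)`. -/
def ParityAt (B : Branch) : Prop :=
  ∃ n m, CrashPair B n m ∧ ∀ (c d : ℕ) (e : Node), B[c]? = some e → e.partner = some d →
    ((InTrace B n c ∨ InTrace B m c) ↔ (InTrace B n d ∨ InTrace B m d))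

/-- The branch `B` carries a crash-pair `Z` such that every critical node on `B`, together with its
partner, lies in `T(Z)`. -/
def StrengthenedParityAt (B : Branch) : Prop :=
  ∃ n m, CrashPair B n m ∧ ∀ (c d : ℕ) (e : Node), B[c]? = some e → e.partner = some d →
    ((InTrace B n c ∨ InTrace B m c) ∧ (InTrace B n d ∨ InTrace B m d))

/-- The formulae having a truth-tree with parity. -/
def DA : Set Fm := {φ | ∃ t : TruthTree φ, ∀ B ∈ t.branches, ParityAt B}

/-- The formulae having a truth-tree with strengthened parity. -/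
def DAs : Set Fm := {φ | ∃ t : TruthTree φ, ∀ B ∈ t.branches, StrengthenedParityAt B}

/-! ## Closed sets of formulas -/

open Fm

/-- Closure of `L` under the rules for the formula `f`, at forks in at least one direction. -/
def okL (L : List Fm) : Fm → Bool
  | Fm.atom _ => true
  | Fm.and α β => decide (α ∈ L ∧ β ∈ L)
  | Fm.or α β => decide (α ∈ L ∨ β ∈ L)
  | Fm.imp α β => decide (α ∈ L → β ∈ L)
  | Fm.neg (Fm.or α β) => decide (Fm.neg α ∈ L ∧ Fm.neg β ∈ L)
  | Fm.neg (Fm.neg α) => decide (α ∈ L)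
  | Fm.neg (Fm.and α β) => decide (Fm.neg α ∈ L ∨ Fm.neg β ∈ L)
  | Fm.neg (Fm.imp α β) => decide (α ∈ L ∧ Fm.neg β ∈ L)
  | Fm.neg (Fm.atom _) => true

/-- `S` contains the premises (in `L`) of a rule applied to `f` when it contains a conclusion. -/
def okS (L S : List Fm) (f : Fm) : Bool := match f with
  | Fm.atom _ => true
  | Fm.and α β => decide ((α ∈ S ∨ β ∈ S) → f ∈ S)
  | Fm.or α β => decide ((α ∈ S ∨ β ∈ S) → f ∈ S)
  | Fm.imp α β => decide (α ∈ L → β ∈ S → (f ∈ S ∧ α ∈ S))
  | Fm.neg (Fm.or α β) => decide ((Fm.neg α ∈ S ∨ Fm.neg β ∈ S) → f ∈ S)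
  | Fm.neg (Fm.neg α) => decide (α ∈ S → f ∈ S)
  | Fm.neg (Fm.and α β) => decide ((Fm.neg α ∈ S ∨ Fm.neg β ∈ S) → f ∈ S)
  | Fm.neg (Fm.imp α β) => decide ((α ∈ S ∨ Fm.neg β ∈ S) → f ∈ S)
  | Fm.neg (Fm.atom _) => true

/-- `L` is closed under the rules, at forks in at least one direction. -/
def ClosedL (L : List Fm) : Prop := ∀ f ∈ L, okL L f = true

/-- `S` contains the premises (in `L`) of a rule when it contains a conclusion. -/
def SrcClosed (L S : List Fm) : Prop := ∀ f ∈ L, okS L S f = true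

/-- All crash-pairs with formulas in `L` have their formulas in `S`. -/
def CrashIn (L S : List Fm) : Prop := ∀ f ∈ L, Fm.neg f ∈ L → (f ∈ S ∧ Fm.neg f ∈ S)

/-- The labels of `B` are in `L`, and nodes with labels in `S` are obtained from nodes with labels
in `S`. -/
def Inv (L S : List Fm) (B : Branch) : Prop :=
  (∀ e ∈ B, e.label ∈ L) ∧
  ∀ e ∈ B, e.label ∈ S → ∀ i ∈ e.src, ∃ f, lab B i = some f ∧ f ∈ S

/-- There is a critical node with label outside `S`. -/
def HasCrit (S : List Fm) (B : Branch) : Prop :=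
  ∃ (c d : ℕ) (e : Node), B[c]? = some e ∧ e.partner = some d ∧ e.label ∉ S

theorem lab_append {B C : Branch} {i : ℕ} {f : Fm} (h : lab B i = some f) :
    lab (B ++ C) i = some f := by
  unfold lab at *
  rcases hB : B[i]? with _ | e
  · rw [hB] at h; simp at h
  · rw [List.getElem?_append_left (List.getElem?_eq_some_iff.1 hB).1]
    exact h

theorem lab_mem {B : Branch} {i : ℕ} {f : Fm} (h : lab B i = some f) :
    ∃ e ∈ B, e.label = f := by
  unfold lab at h
  rw [Option.map_eq_some_iff] at h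
  obtain ⟨e, he, hf⟩ := h
  exact ⟨e, List.mem_of_getElem? he, hf⟩

theorem inv_append {L S : List Fm} {B C : Branch} (hB : Inv L S B)
    (hC : ∀ e ∈ C, e.label ∈ L ∧ (e.label ∈ S → ∀ i ∈ e.src, ∃ f, lab B i = some f ∧ f ∈ S)) :
    Inv L S (B ++ C) := by
  constructor
  · intro e he
    rcases List.mem_append.1 he with he | he
    · exact hB.1 e he
    · exact (hC e he).1
  · intro e he hS i hi
    rcases List.mem_append.1 he with he | he
    · obtain ⟨f, h1, h2⟩ := hB.2 e he hS i hi
      exact ⟨f, lab_append h1, h2⟩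
    · obtain ⟨f, h1, h2⟩ := (hC e he).2 hS i hi
      exact ⟨f, lab_append h1, h2⟩

theorem crit_append {S : List Fm} {B C : Branch} (hB : HasCrit S B) : HasCrit S (B ++ C) := by
  obtain ⟨c, d, e, h1, h2, h3⟩ := hB
  exact ⟨c, d, e, by rw [List.getElem?_append_left (List.getElem?_eq_some_iff.1 h1).1]; exact h1,
    h2, h3⟩

theorem trace_in {L S : List Fm} {B : Branch} (hB : Inv L S B) {n k : ℕ} (h : InTrace B n k)
    {f : Fm} (hf : lab B n = some f) (hfS : f ∈ S) : ∃ g, lab B k = some g ∧ g ∈ S := by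
  induction h with
  | self => exact ⟨f, hf, hfS⟩
  | step m k e _ h2 h3 ih =>
    obtain ⟨g, hg1, hg2⟩ := ih
    have h4 : e.label = g := by
      unfold lab at hg1
      rw [h2] at hg1
      simpa using hg1
    exact hB.2 e (List.mem_of_getElem? h2) (h4 ▸ hg2) k h3

/-- Every tree with a critical node outside `S` has a branch that violates strengthened parity. -/
theorem violates {L S : List Fm} (hL : ClosedL L) (hS : SrcClosed L S) (hc : CrashIn L S)
    {B : Branch} (t : Tree B) (hB : Inv L S B) (hcrit : HasCrit S B) :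
    ∃ B' ∈ t.branches, ¬ StrengthenedParityAt B' := by
  induction t with
  | leaf B =>
    refine ⟨B, by simp [Tree.branches], ?_⟩
    rintro ⟨n, m, ⟨ζ, h1, h2⟩, h3⟩
    obtain ⟨c, d, e, hc1, hc2, hc3⟩ := hcrit
    obtain ⟨e1, he1, rfl⟩ := lab_mem h1
    obtain ⟨e2, he2, he2'⟩ := lab_mem h2
    have h4 := hc _ (hB.1 e1 he1) (he2' ▸ hB.1 e2 he2)
    have h5 : ∃ g, lab B c = some g ∧ g ∈ S := by
      rcases (h3 c d e hc1 hc2).1 with h | h
      · exact trace_in hB h h1 h4.1
      · exact trace_in hB h h2 h4.2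
    obtain ⟨g, hg1, hg2⟩ := h5
    have h6 : e.label = g := by
      unfold lab at hg1
      rw [hc1] at hg1
      simpa using hg1
    exact hc3 (h6 ▸ hg2)
  | conj B i α β h t ih =>
    obtain ⟨e, he, hf⟩ := lab_mem h
    have h1 := hL _ (hf ▸ hB.1 e he)
    have h2 := hS _ (hf ▸ hB.1 e he)
    simp only [okL, okS, decide_eq_true_eq] at h1 h2
    refine ih (inv_append hB ?_) (crit_append hcrit)
    intro e' he'
    simp only [List.mem_cons, List.not_mem_nil, or_false] at he'
    rcases he' with rfl | rfl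
    · refine ⟨h1.1, fun h3 j hj => ?_⟩
      rw [List.mem_singleton] at hj
      subst hj
      exact ⟨_, h, h2 (Or.inl h3)⟩
    · refine ⟨h1.2, fun h3 j hj => ?_⟩
      rw [List.mem_singleton] at hj
      subst hj
      exact ⟨_, h, h2 (Or.inr h3)⟩
  | negDisj B i α β h t ih =>
    obtain ⟨e, he, hf⟩ := lab_mem h
    have h1 := hL _ (hf ▸ hB.1 e he)
    have h2 := hS _ (hf ▸ hB.1 e he)
    simp only [okL, okS, decide_eq_true_eq] at h1 h2
    refine ih (inv_append hB ?_) (crit_append hcrit)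
    intro e' he'
    simp only [List.mem_cons, List.not_mem_nil, or_false] at he'
    rcases he' with rfl | rfl
    · refine ⟨h1.1, fun h3 j hj => ?_⟩
      rw [List.mem_singleton] at hj
      subst hj
      exact ⟨_, h, h2 (Or.inl h3)⟩
    · refine ⟨h1.2, fun h3 j hj => ?_⟩
      rw [List.mem_singleton] at hj
      subst hj
      exact ⟨_, h, h2 (Or.inr h3)⟩
  | negNeg B i α h t ih =>
    obtain ⟨e, he, hf⟩ := lab_mem h
    have h1 := hL _ (hf ▸ hB.1 e he)
    have h2 := hS _ (hf ▸ hB.1 e he)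
    simp only [okL, okS, decide_eq_true_eq] at h1 h2
    refine ih (inv_append hB ?_) (crit_append hcrit)
    intro e' he'
    rw [List.mem_singleton] at he'
    subst he'
    refine ⟨h1, fun h3 j hj => ?_⟩
    rw [List.mem_singleton] at hj
    subst hj
    exact ⟨_, h, h2 h3⟩
  | negConj B i α β h t₁ t₂ ih₁ ih₂ =>
    obtain ⟨e, he, hf⟩ := lab_mem h
    have h1 := hL _ (hf ▸ hB.1 e he)
    have h2 := hS _ (hf ▸ hB.1 e he)
    simp only [okL, okS, decide_eq_true_eq] at h1 h2
    rcases h1 with h1 | h1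
    · obtain ⟨B', hB', hv⟩ := ih₁ (inv_append hB (by
        intro e' he'
        rw [List.mem_singleton] at he'
        subst he'
        refine ⟨h1, fun h3 j hj => ?_⟩
        rw [List.mem_singleton] at hj
        subst hj
        exact ⟨_, h, h2 (Or.inl h3)⟩)) (crit_append hcrit)
      exact ⟨B', List.mem_append_left _ hB', hv⟩
    · obtain ⟨B', hB', hv⟩ := ih₂ (inv_append hB (by
        intro e' he'
        rw [List.mem_singleton] at he'
        subst he'
        refine ⟨h1, fun h3 j hj => ?_⟩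
        rw [List.mem_singleton] at hj
        subst hj
        exact ⟨_, h, h2 (Or.inr h3)⟩)) (crit_append hcrit)
      exact ⟨B', List.mem_append_right _ hB', hv⟩
  | disj B i α β h t₁ t₂ ih₁ ih₂ =>
    obtain ⟨e, he, hf⟩ := lab_mem h
    have h1 := hL _ (hf ▸ hB.1 e he)
    have h2 := hS _ (hf ▸ hB.1 e he)
    simp only [okL, okS, decide_eq_true_eq] at h1 h2
    rcases h1 with h1 | h1
    · obtain ⟨B', hB', hv⟩ := ih₁ (inv_append hB (by
        intro e' he'
        rw [List.mem_singleton] at he'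
        subst he'
        refine ⟨h1, fun h3 j hj => ?_⟩
        rw [List.mem_singleton] at hj
        subst hj
        exact ⟨_, h, h2 (Or.inl h3)⟩)) (crit_append hcrit)
      exact ⟨B', List.mem_append_left _ hB', hv⟩
    · obtain ⟨B', hB', hv⟩ := ih₂ (inv_append hB (by
        intro e' he'
        rw [List.mem_singleton] at he'
        subst he'
        refine ⟨h1, fun h3 j hj => ?_⟩
        rw [List.mem_singleton] at hj
        subst hj
        exact ⟨_, h, h2 (Or.inr h3)⟩)) (crit_append hcrit)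
      exact ⟨B', List.mem_append_right _ hB', hv⟩
  | mp B i j α β h₁ h₂ t ih =>
    obtain ⟨e, he, hf⟩ := lab_mem h₂
    obtain ⟨e2, he2, hf2⟩ := lab_mem h₁
    have h1 := hL _ (hf ▸ hB.1 e he)
    have h2 := hS _ (hf ▸ hB.1 e he)
    simp only [okL, okS, decide_eq_true_eq] at h1 h2
    have hα : α ∈ L := hf2 ▸ hB.1 e2 he2
    refine ih (inv_append hB ?_) (crit_append hcrit)
    intro e' he'
    rw [List.mem_singleton] at he'
    subst he'
    refine ⟨h1 hα, fun h3 k hk => ?_⟩
    simp only [List.mem_cons, List.not_mem_nil, or_false] at hk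
    rcases hk with rfl | rfl
    · exact ⟨_, h₁, (h2 hα h3).2⟩
    · exact ⟨_, h₂, (h2 hα h3).1⟩
  | counter B i α β h t ih =>
    obtain ⟨e, he, hf⟩ := lab_mem h
    have h1 := hL _ (hf ▸ hB.1 e he)
    have h2 := hS _ (hf ▸ hB.1 e he)
    simp only [okL, okS, decide_eq_true_eq] at h1 h2
    refine ih (inv_append hB ?_) (crit_append hcrit)
    intro e' he'
    simp only [List.mem_cons, List.not_mem_nil, or_false] at he'
    rcases he' with rfl | rfl
    · refine ⟨h1.1, fun h3 j hj => ?_⟩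
      rw [List.mem_singleton] at hj
      subst hj
      exact ⟨_, h, h2 (Or.inl h3)⟩
    · refine ⟨h1.2, fun h3 j hj => ?_⟩
      rw [List.mem_singleton] at hj
      subst hj
      exact ⟨_, h, h2 (Or.inr h3)⟩

/-! ## The formula -/

/-- `p` -/
abbrev xp : Fm := Fm.atom 0
/-- `q` -/
abbrev xq : Fm := Fm.atom 1
/-- `p'` -/
abbrev xp' : Fm := Fm.atom 2
/-- `q'` -/
abbrev xq' : Fm := Fm.atom 3
/-- `l` -/
abbrev xl : Fm := Fm.atom 4
/-- `r` -/
abbrev xr : Fm := Fm.atom 5
/-- `a` -/
abbrev xa : Fm := Fm.atom 6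
/-- `b` -/
abbrev xb : Fm := Fm.atom 7
/-- `s` -/
abbrev xs : Fm := Fm.atom 8
/-- `¬(p → q)` -/
abbrev P1 : Fm := neg (imp xp xq)
/-- `¬(p' → q')` -/
abbrev P2 : Fm := neg (imp xp' xq')
/-- `p → (l ∨ r)` -/
abbrev P3 : Fm := imp xp (or xl xr)
/-- `p' → (a ∨ b)` -/
abbrev P4 : Fm := imp xp' (or xa xb)
/-- `r → q` -/
abbrev P5 : Fm := imp xr xq
/-- `b → q'` -/
abbrev P6 : Fm := imp xb xq'
/-- `l → (a → s)` -/
abbrev P7 : Fm := imp xl (imp xa xs)
/-- `¬q → (¬q' → ¬s)` -/
abbrev P8 : Fm := imp (neg xq) (imp (neg xq') (neg xs))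
/-- the last seven conjuncts, and so on -/
abbrev C2 : Fm := and P2 (and P3 (and P4 (and P5 (and P6 (and P7 P8)))))
/-- the last six conjuncts -/
abbrev C3 : Fm := and P3 (and P4 (and P5 (and P6 (and P7 P8))))
/-- the last five conjuncts -/
abbrev C4 : Fm := and P4 (and P5 (and P6 (and P7 P8)))
/-- the last four conjuncts -/
abbrev C5 : Fm := and P5 (and P6 (and P7 P8))
/-- the last three conjuncts -/
abbrev C6 : Fm := and P6 (and P7 P8)
/-- the last two conjuncts -/
abbrev C7 : Fm := and P7 P8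
/-- The conjunction. -/
abbrev C1 : Fm := and P1 C2
/-- The formula `¬(P₁ ∧ … ∧ P₈)`. -/
abbrev phi : Fm := neg C1

/-- The formulas on a branch without forks. -/
def L0 : List Fm := [neg phi, C1, C2, C3, C4, C5, C6, C7, P1, P2, P3, P4, P5, P6, P7, P8,
  xp, neg xq, xp', neg xq', or xl xr, or xa xb, imp (neg xq') (neg xs), neg xs]

/-- The formulas on the branch that goes to `l` and `b`. -/
def LLB : List Fm := [neg phi, C1, C2, C3, C4, C5, C6, C7, P1, P2, P3, P4, P5, P6, P7, P8,
  xp, neg xq, xp', neg xq', or xl xr, or xa xb, imp (neg xq') (neg xs), neg xs, xl, xb, xq', imp xa xs]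

/-- The formulas on the branch that goes to `r` and `a`. -/
def LRA : List Fm := [neg phi, C1, C2, C3, C4, C5, C6, C7, P1, P2, P3, P4, P5, P6, P7, P8,
  xp, neg xq, xp', neg xq', or xl xr, or xa xb, imp (neg xq') (neg xs), neg xs, xr, xa, xq]

/-- The formulas in the traces of `q'` and `¬q'`. -/
def S2 : List Fm := [neg phi, C1, C2, C3, C4, C5, C6, C7, P1, P2, P3, P4, P5, P6, P7, P8,
  xp', neg xq', or xa xb, xb, xq']

/-- The formulas in the traces of `q` and `¬q`. -/
def S1 : List Fm := [neg phi, C1, C2, C3, C4, C5, C6, C7, P1, P2, P3, P4, P5, P6, P7, P8,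
  xp, neg xq, or xl xr, xr, xq]

theorem hLLB : ClosedL LLB := by unfold ClosedL; decide
theorem hLRA : ClosedL LRA := by unfold ClosedL; decide
theorem hS2 : SrcClosed LLB S2 := by unfold SrcClosed; decide
theorem hS1 : SrcClosed LRA S1 := by unfold SrcClosed; decide
theorem hS20 : SrcClosed L0 S2 := by unfold SrcClosed; decide
theorem hS10 : SrcClosed L0 S1 := by unfold SrcClosed; decide
theorem hC2 : CrashIn LLB S2 := by unfold CrashIn; decide
theorem hC1 : CrashIn LRA S1 := by unfold CrashIn; decide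
theorem hC0 : ∀ f ∈ L0, neg f ∉ L0 := by decide

/-- Conditions for the formulas before the first fork. -/
def ok0 (f : Fm) : Bool := match f with
  | Fm.atom _ => true
  | Fm.and α β => decide (α ∈ L0 ∧ β ∈ L0 ∧ α ∉ [xp, xp', or xl xr, or xa xb] ∧
      β ∉ [xp, xp', or xl xr, or xa xb])
  | Fm.or α β => decide ((α = xl ∧ β = xr) ∨ (α = xa ∧ β = xb))
  | Fm.imp α β => decide (α ∈ L0 → β ∈ L0 ∧ β ∉ [xp, xp'] ∧ (β = or xl xr → α = xp) ∧
      (β = or xa xb → α = xp'))
  | Fm.neg (Fm.or _ _) => false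
  | Fm.neg (Fm.neg α) => decide (α ∈ L0 ∧ α ∉ [xp, xp', or xl xr, or xa xb])
  | Fm.neg (Fm.and _ _) => false
  | Fm.neg (Fm.imp α β) => decide (α ∈ L0 ∧ Fm.neg β ∈ L0 ∧ α ≠ or xl xr ∧ α ≠ or xa xb)
  | Fm.neg (Fm.atom _) => true

theorem hok0 : ∀ f ∈ L0, ok0 f = true := by decide

/-- The invariant before the first fork. -/
def Inv0 (B : Branch) : Prop :=
  (∀ T, SrcClosed L0 T → Inv L0 T B) ∧
  (∀ e ∈ B, (e.label = xp ∨ e.label = xp') → ∃ d, e.partner = some d) ∧
  ((∃ e ∈ B, e.label = or xl xr) → ∃ e ∈ B, e.label = xp) ∧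
  ((∃ e ∈ B, e.label = or xa xb) → ∃ e ∈ B, e.label = xp')

theorem inv0_append {B C : Branch} (hB : Inv0 B)
    (hC : ∀ e ∈ C, e.label ∈ L0 ∧
      (∀ T, SrcClosed L0 T → e.label ∈ T → ∀ i ∈ e.src, ∃ f, lab B i = some f ∧ f ∈ T) ∧
      ((e.label = xp ∨ e.label = xp') → ∃ d, e.partner = some d) ∧
      (e.label = or xl xr → ∃ e ∈ B, e.label = xp) ∧
      (e.label = or xa xb → ∃ e ∈ B, e.label = xp')) : Inv0 (B ++ C) := by
  refine ⟨fun T hT => inv_append (hB.1 T hT) fun e he => ⟨(hC e he).1, (hC e he).2.1 T hT⟩,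
    ?_, ?_, ?_⟩
  · intro e he
    rcases List.mem_append.1 he with he | he
    · exact hB.2.1 e he
    · exact (hC e he).2.2.1
  · rintro ⟨e, he, hf⟩
    have : ∃ e ∈ B, e.label = xp := by
      rcases List.mem_append.1 he with he | he
      · exact hB.2.2.1 ⟨e, he, hf⟩
      · exact (hC e he).2.2.2.1 hf
    obtain ⟨e', he', hf'⟩ := this
    exact ⟨e', List.mem_append_left _ he', hf'⟩
  · rintro ⟨e, he, hf⟩
    have : ∃ e ∈ B, e.label = xp' := by
      rcases List.mem_append.1 he with he | he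
      · exact hB.2.2.2 ⟨e, he, hf⟩
      · exact (hC e he).2.2.2.2 hf
    obtain ⟨e', he', hf'⟩ := this
    exact ⟨e', List.mem_append_left _ he', hf'⟩

theorem inv_mono {L M T : List Fm} {B : Branch} (h : Inv L T B) (hLM : ∀ f ∈ L, f ∈ M) :
    Inv M T B := ⟨fun e he => hLM _ (h.1 e he), h.2⟩

/-- Every tree for the formula has a branch that violates strengthened parity. -/
theorem violates0 {B : Branch} (t : Tree B) (hB : Inv0 B) :
    ∃ B' ∈ t.branches, ¬ StrengthenedParityAt B' := by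
  have hL0 : ∀ {B : Branch}, Inv0 B → ∀ e ∈ B, e.label ∈ L0 := fun h => (h.1 _ hS20).1
  induction t with
  | leaf B =>
    refine ⟨B, by simp [Tree.branches], ?_⟩
    rintro ⟨n, m, ⟨ζ, h1, h2⟩, -⟩
    obtain ⟨e1, he1, rfl⟩ := lab_mem h1
    obtain ⟨e2, he2, he2'⟩ := lab_mem h2
    exact hC0 _ (hL0 hB e1 he1) (he2' ▸ hL0 hB e2 he2)
  | conj B i α β h t ih =>
    obtain ⟨e, he, hf⟩ := lab_mem h
    have h1 := hok0 _ (hf ▸ hL0 hB e he)
    simp only [ok0, decide_eq_true_eq, List.mem_cons, List.not_mem_nil, or_false, not_or] at h1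
    refine ih (inv0_append hB ?_)
    intro e' he'
    simp only [List.mem_cons, List.not_mem_nil, or_false] at he'
    rcases he' with rfl | rfl
    · refine ⟨h1.1, fun T hT h3 j hj => ?_, fun h3 => ?_, fun h3 => ?_, fun h3 => ?_⟩
      · rw [List.mem_singleton] at hj
        subst hj
        have h2 := hT _ (hf ▸ hL0 hB e he)
        simp only [okS, decide_eq_true_eq] at h2
        exact ⟨_, h, h2 (Or.inl h3)⟩
      · rcases h3 with h3 | h3
        · exact absurd h3 h1.2.2.1.1
        · exact absurd h3 h1.2.2.1.2.1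
      · exact absurd h3 h1.2.2.1.2.2.1
      · exact absurd h3 h1.2.2.1.2.2.2
    · refine ⟨h1.2.1, fun T hT h3 j hj => ?_, fun h3 => ?_, fun h3 => ?_, fun h3 => ?_⟩
      · rw [List.mem_singleton] at hj
        subst hj
        have h2 := hT _ (hf ▸ hL0 hB e he)
        simp only [okS, decide_eq_true_eq] at h2
        exact ⟨_, h, h2 (Or.inr h3)⟩
      · rcases h3 with h3 | h3
        · exact absurd h3 h1.2.2.2.1
        · exact absurd h3 h1.2.2.2.2.1
      · exact absurd h3 h1.2.2.2.2.2.1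
      · exact absurd h3 h1.2.2.2.2.2.2
  | negDisj B i α β h t ih =>
    obtain ⟨e, he, hf⟩ := lab_mem h
    have h1 := hok0 _ (hf ▸ hL0 hB e he)
    simp [ok0] at h1
  | negNeg B i α h t ih =>
    obtain ⟨e, he, hf⟩ := lab_mem h
    have h1 := hok0 _ (hf ▸ hL0 hB e he)
    simp only [ok0, decide_eq_true_eq, List.mem_cons, List.not_mem_nil, or_false, not_or] at h1
    refine ih (inv0_append hB ?_)
    intro e' he'
    rw [List.mem_singleton] at he'
    subst he'
    refine ⟨h1.1, fun T hT h3 j hj => ?_, fun h3 => ?_, fun h3 => ?_, fun h3 => ?_⟩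
    · rw [List.mem_singleton] at hj
      subst hj
      have h2 := hT _ (hf ▸ hL0 hB e he)
      simp only [okS, decide_eq_true_eq] at h2
      exact ⟨_, h, h2 h3⟩
    · rcases h3 with h3 | h3
      · exact absurd h3 h1.2.1
      · exact absurd h3 h1.2.2.1
    · exact absurd h3 h1.2.2.2.1
    · exact absurd h3 h1.2.2.2.2
  | negConj B i α β h t₁ t₂ ih₁ ih₂ =>
    obtain ⟨e, he, hf⟩ := lab_mem h
    have h1 := hok0 _ (hf ▸ hL0 hB e he)
    simp [ok0] at h1
  | disj B i α β h t₁ t₂ ih₁ ih₂ =>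
    obtain ⟨e, he, hf⟩ := lab_mem h
    have h1 := hok0 _ (hf ▸ hL0 hB e he)
    simp only [ok0, decide_eq_true_eq] at h1
    rcases h1 with ⟨rfl, rfl⟩ | ⟨rfl, rfl⟩
    · -- fork on `l ∨ r`: go to `l`
      obtain ⟨e', he', hf'⟩ := hB.2.2.1 ⟨e, he, hf⟩
      obtain ⟨d, hd⟩ := hB.2.1 e' he' (Or.inl hf')
      obtain ⟨c, hc⟩ := List.getElem?_of_mem he'
      obtain ⟨B', hB', hv⟩ := violates hLLB hS2 hC2 t₁
        (inv_append (inv_mono (hB.1 _ hS20) (by decide)) (by
          intro e'' he''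
          rw [List.mem_singleton] at he''
          subst he''
          exact ⟨by simp only; decide, fun h3 => absurd h3 (by simp only; decide)⟩))
        (crit_append ⟨c, d, e', hc, hd, by rw [hf']; decide⟩)
      exact ⟨B', List.mem_append_left _ hB', hv⟩
    · -- fork on `a ∨ b`: go to `a`
      obtain ⟨e', he', hf'⟩ := hB.2.2.2 ⟨e, he, hf⟩
      obtain ⟨d, hd⟩ := hB.2.1 e' he' (Or.inr hf')
      obtain ⟨c, hc⟩ := List.getElem?_of_mem he'
      obtain ⟨B', hB', hv⟩ := violates hLRA hS1 hC1 t₁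
        (inv_append (inv_mono (hB.1 _ hS10) (by decide)) (by
          intro e'' he''
          rw [List.mem_singleton] at he''
          subst he''
          exact ⟨by simp only; decide, fun h3 => absurd h3 (by simp only; decide)⟩))
        (crit_append ⟨c, d, e', hc, hd, by rw [hf']; decide⟩)
      exact ⟨B', List.mem_append_left _ hB', hv⟩
  | mp B i j α β h₁ h₂ t ih =>
    obtain ⟨e, he, hf⟩ := lab_mem h₂
    obtain ⟨e2, he2, hf2⟩ := lab_mem h₁
    have hα : α ∈ L0 := hf2 ▸ hL0 hB e2 he2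
    have h1 := hok0 _ (hf ▸ hL0 hB e he)
    simp only [ok0, decide_eq_true_eq, List.mem_cons, List.not_mem_nil, or_false, not_or] at h1
    obtain ⟨h11, h12, h13, h14⟩ := h1 hα
    refine ih (inv0_append hB ?_)
    intro e' he'
    rw [List.mem_singleton] at he'
    subst he'
    refine ⟨h11, fun T hT h3 k hk => ?_, fun h3 => ?_, fun h3 => ?_, fun h3 => ?_⟩
    · have h2 := hT _ (hf ▸ hL0 hB e he)
      simp only [okS, decide_eq_true_eq] at h2
      simp only [List.mem_cons, List.not_mem_nil, or_false] at hk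
      rcases hk with rfl | rfl
      · exact ⟨_, h₁, (h2 hα h3).2⟩
      · exact ⟨_, h₂, (h2 hα h3).1⟩
    · rcases h3 with h3 | h3
      · exact absurd h3 h12.1
      · exact absurd h3 h12.2
    · exact ⟨e2, he2, hf2.trans (h13 h3)⟩
    · exact ⟨e2, he2, hf2.trans (h14 h3)⟩
  | counter B i α β h t ih =>
    obtain ⟨e, he, hf⟩ := lab_mem h
    have h1 := hok0 _ (hf ▸ hL0 hB e he)
    simp only [ok0, decide_eq_true_eq] at h1
    refine ih (inv0_append hB ?_)
    intro e' he'
    simp only [List.mem_cons, List.not_mem_nil, or_false] at he'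
    rcases he' with rfl | rfl
    · refine ⟨h1.1, fun T hT h3 j hj => ?_, fun h3 => ⟨_, rfl⟩, fun h3 => absurd h3 h1.2.2.1,
        fun h3 => absurd h3 h1.2.2.2⟩
      rw [List.mem_singleton] at hj
      subst hj
      have h2 := hT _ (hf ▸ hL0 hB e he)
      simp only [okS, decide_eq_true_eq] at h2
      exact ⟨_, h, h2 (Or.inl h3)⟩
    · refine ⟨h1.2.1, fun T hT h3 j hj => ?_, fun h3 => ⟨_, rfl⟩, fun h3 => ?_, fun h3 => ?_⟩
      · rw [List.mem_singleton] at hj
        subst hj
        have h2 := hT _ (hf ▸ hL0 hB e he)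
        simp only [okS, decide_eq_true_eq] at h2
        exact ⟨_, h, h2 (Or.inr h3)⟩
      · simp at h3
      · simp at h3

theorem not_mem_DAs : phi ∉ DAs := by
  rintro ⟨t, ht⟩
  obtain ⟨B', hB', hv⟩ := violates0 t (by
    refine ⟨fun T _ => ⟨?_, ?_⟩, ?_, ?_, ?_⟩
    · intro e he
      rw [List.mem_singleton] at he
      subst he
      simp only
      decide
    · intro e he _ i hi
      rw [List.mem_singleton] at he
      subst he
      simp at hi
    · intro e he h
      rw [List.mem_singleton] at he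
      subst he
      simp at h
    · rintro ⟨e, he, h⟩
      rw [List.mem_singleton] at he
      subst he
      simp at h
    · rintro ⟨e, he, h⟩
      rw [List.mem_singleton] at he
      subst he
      simp at h)
  exact hv (ht B' hB')

/-! ## The tree with parity -/

/-- The nodes from which the nodes at the positions in `X` were obtained. -/
def srcs (B : Branch) (X : List ℕ) : List ℕ :=
  X.flatMap fun m => match B[m]? with
    | some e => e.src
    | none => []

/-- Iteration of `srcs`. -/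
def reach (B : Branch) : ℕ → List ℕ → List ℕ
  | 0, X => X
  | k + 1, X => reach B k (srcs B X ∪ X)

theorem reach_sound (B : Branch) (n m : ℕ) (k : ℕ) (X : List ℕ)
    (hX : ∀ c ∈ X, InTrace B n c ∨ InTrace B m c) :
    ∀ c ∈ reach B k X, InTrace B n c ∨ InTrace B m c := by
  induction k generalizing X with
  | zero => exact hX
  | succ k ih =>
    apply ih
    intro c hc
    rcases List.mem_union_iff.1 hc with hc | hc
    swap
    · exact hX c hc
    · unfold srcs at hc
      rw [List.mem_flatMap] at hc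
      obtain ⟨a, ha, hc⟩ := hc
      rcases hB : B[a]? with _ | e
      · rw [hB] at hc; simp at hc
      · rw [hB] at hc
        simp only at hc
        rcases hX a ha with h | h
        · exact Or.inl (InTrace.step a c e h hB hc)
        · exact Or.inr (InTrace.step a c e h hB hc)

theorem trace_subset (B : Branch) (n : ℕ) (X : List ℕ) (hn : n ∈ X)
    (hX : ∀ c ∈ srcs B X, c ∈ X) {c : ℕ} (h : InTrace B n c) : c ∈ X := by
  induction h with
  | self => exact hn
  | step m k e _ h2 h3 ih =>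
    apply hX
    unfold srcs
    rw [List.mem_flatMap]
    refine ⟨m, ih, ?_⟩
    rw [h2]
    exact h3

/-- The decidable form of parity. -/
theorem parityAt_of (B : Branch) (n m k : ℕ) (h1 : ∃ f, lab B n = some f ∧ lab B m = some (neg f))
    (h2 : ∀ c ∈ srcs B (reach B k [n, m]), c ∈ reach B k [n, m])
    (h2' : n ∈ reach B k [n, m] ∧ m ∈ reach B k [n, m])
    (h3 : ∀ c < B.length, ∀ d ∈ (B[c]?).bind Node.partner,
      (c ∈ reach B k [n, m] ↔ d ∈ reach B k [n, m])) : ParityAt B := by
  have key : ∀ c, (InTrace B n c ∨ InTrace B m c) ↔ c ∈ reach B k [n, m] := by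
    intro c
    constructor
    · rintro (h | h)
      · exact trace_subset B n _ h2'.1 h2 h
      · exact trace_subset B m _ h2'.2 h2 h
    · intro h
      refine reach_sound B n m k [n, m] ?_ c h
      intro c hc
      simp only [List.mem_cons, List.not_mem_nil, or_false] at hc
      rcases hc with rfl | rfl
      · exact Or.inl InTrace.self
      · exact Or.inr InTrace.self
  refine ⟨n, m, h1, fun c d e hc hd => ?_⟩
  rw [key, key]
  have hlt := (List.getElem?_eq_some_iff.1 hc).1
  exact h3 c hlt d (by rw [hc]; exact hd)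

/-- The tree with parity. -/
def tree : TruthTree phi :=
  Tree.negNeg _ 0 C1 rfl <|
  Tree.conj _ 1 P1 C2 rfl <|
  Tree.conj _ 3 P2 C3 rfl <|
  Tree.conj _ 5 P3 C4 rfl <|
  Tree.conj _ 7 P4 C5 rfl <|
  Tree.conj _ 9 P5 C6 rfl <|
  Tree.conj _ 11 P6 C7 rfl <|
  Tree.conj _ 13 P7 P8 rfl <|
  Tree.counter _ 2 xp xq rfl <|
  Tree.mp _ 16 6 xp (or xl xr) rfl rfl <|
  Tree.disj _ 18 xl xr rfl
    (Tree.counter _ 4 xp' xq' rfl <|
      Tree.mp _ 20 8 xp' (or xa xb) rfl rfl <|
      Tree.disj _ 22 xa xb rfl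
        (Tree.mp _ 19 14 xl (imp xa xs) rfl rfl <|
          Tree.mp _ 23 24 xa xs rfl rfl <|
          Tree.mp _ 17 15 (neg xq) (imp (neg xq') (neg xs)) rfl rfl <|
          Tree.mp _ 21 26 (neg xq') (neg xs) rfl rfl <|
          Tree.leaf _)
        (Tree.mp _ 23 12 xb xq' rfl rfl <|
          Tree.leaf _))
    (Tree.mp _ 19 10 xr xq rfl rfl <|
      Tree.leaf _)

/-- The first part of all branches. -/
def stem : Branch := [⟨neg phi, [], none⟩, ⟨C1, [0], none⟩, ⟨P1, [1], none⟩, ⟨C2, [1], none⟩,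
  ⟨P2, [3], none⟩, ⟨C3, [3], none⟩, ⟨P3, [5], none⟩, ⟨C4, [5], none⟩, ⟨P4, [7], none⟩,
  ⟨C5, [7], none⟩, ⟨P5, [9], none⟩, ⟨C6, [9], none⟩, ⟨P6, [11], none⟩, ⟨C7, [11], none⟩,
  ⟨P7, [13], none⟩, ⟨P8, [13], none⟩, ⟨xp, [2], some 17⟩, ⟨neg xq, [2], some 16⟩,
  ⟨or xl xr, [16, 6], none⟩]

/-- The branch of `l` and `a`. -/
def branch1 : Branch := stem ++ [⟨xl, [18], none⟩, ⟨xp', [4], some 21⟩, ⟨neg xq', [4], some 20⟩,
  ⟨or xa xb, [20, 8], none⟩, ⟨xa, [22], none⟩, ⟨imp xa xs, [19, 14], none⟩, ⟨xs, [23, 24], none⟩,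
  ⟨imp (neg xq') (neg xs), [17, 15], none⟩, ⟨neg xs, [21, 26], none⟩]

/-- The branch of `l` and `b`. -/
def branch2 : Branch := stem ++ [⟨xl, [18], none⟩, ⟨xp', [4], some 21⟩, ⟨neg xq', [4], some 20⟩,
  ⟨or xa xb, [20, 8], none⟩, ⟨xb, [22], none⟩, ⟨xq', [23, 12], none⟩]

/-- The branch of `r`. -/
def branch3 : Branch := stem ++ [⟨xr, [18], none⟩, ⟨xq, [19, 10], none⟩]

theorem tree_branches : tree.branches = [branch1, branch2, branch3] := rfl

theorem mem_DA : phi ∈ DA := by
  refine ⟨tree, ?_⟩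
  intro B hB
  rw [tree_branches] at hB
  simp only [List.mem_cons, List.not_mem_nil, or_false] at hB
  rcases hB with rfl | rfl | rfl
  · exact parityAt_of _ 25 27 12 ⟨_, rfl, rfl⟩ (by decide) (by decide) (by decide)
  · exact parityAt_of _ 24 21 12 ⟨_, rfl, rfl⟩ (by decide) (by decide) (by decide)
  · exact parityAt_of _ 20 17 12 ⟨_, rfl, rfl⟩ (by decide) (by decide) (by decide)

/-- Strengthened parity implies parity. -/
theorem DAs_subset_DA : DAs ⊆ DA := by
  rintro φ ⟨t, ht⟩
  refine ⟨t, fun B hB => ?_⟩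
  obtain ⟨n, m, h1, h2⟩ := ht B hB
  exact ⟨n, m, h1, fun c d e hc hd => ⟨fun _ => (h2 c d e hc hd).2, fun _ => (h2 c d e hc hd).1⟩⟩

/-- **`DAˢ ≠ DA`**: the formula `phi` is directly acceptable, but no truth-tree for it satisfies
strengthened parity. So `DAˢ` is a proper subset of `DA`. -/
theorem result : phi ∈ DA ∧ phi ∉ DAs ∧ DAs ⊂ DA :=
  ⟨mem_DA, not_mem_DAs, (Set.ssubset_iff_of_subset DAs_subset_DA).2 ⟨phi, mem_DA, not_mem_DAs⟩⟩

end Pool.Agent.Results.MP_b8bcd1_lc.StrengthenedParityIsStronger
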